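import Pool.Agent.W2helper58.IR.Stm

/-! Piece FIN2 of project IR (helper58): learning of heavy positions. -/

set_option autoImplicit false

namespace Pool.Agent.W2helper19.IR

open Pool.Agent.W2helper58.IR

theorem p_fin2a : P_fin2a := by
  intro X R S _ _ _ Y ε p ω a
  induction a with
  | nil => simp [ans, Sys.hist]
  | cons b a ih =>
    have h1 : ans (fun a => Y.nx ε p (Y.hist ε p a)) ω (b :: a).length =
        ω (Y.nx ε p (Y.hist ε p (ans (fun a => Y.nx ε p (Y.hist ε p a)) ω a.length))) ::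
          ans (fun a => Y.nx ε p (Y.hist ε p a)) ω a.length := rfl
    have h2 : Y.hist ε p (b :: a) = (Y.nx ε p (Y.hist ε p a), b) :: Y.hist ε p a := rfl
    rw [h1, h2]
    constructor
    · intro h
      have h3 := List.cons.inj h
      have h4 := ih.1 h3.2
      intro q hq
      rcases List.mem_cons.1 hq with rfl | hq
      · rw [h3.2] at h3
        exact h3.1
      · exact h4 q hq
    · intro h
      have h3 : ans (fun a => Y.nx ε p (Y.hist ε p a)) ω a.length = a :=
        ih.2 fun q hq => h q (List.mem_cons_of_mem _ hq)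
      rw [h3]
      have h4 := h _ List.mem_cons_self
      simp only at h4
      rw [h4]

/-- the answers after `k` questions -/
noncomputable def av {X R S : Type} [Fintype X] [Nonempty X] [Fintype R] (Y : Sys X R S) (ε : ℝ)
    (v : R × (X → Bool)) (k : ℕ) : List Bool :=
  ans (fun a => Y.nx ε (Y.pk v.1 v.2) (Y.hist ε (Y.pk v.1 v.2) a)) v.2 k

theorem ans_length {X : Type} (q : List Bool → X) (ω : X → Bool) (k : ℕ) :
    (ans q ω k).length = k := by
  induction k with
  | zero => rfl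
  | succ k ih => simp [ans, ih]

section

variable {X R S : Type} [Fintype X] [Nonempty X] [Fintype R] (Y : Sys X R S) (ε : ℝ)

/-- the question after `k` answers -/
noncomputable def xv (v : R × (X → Bool)) (k : ℕ) : X :=
  Y.nx ε (Y.pk v.1 v.2) (Y.hist ε (Y.pk v.1 v.2) (av Y ε v k))

/-- something is heavy after `k` answers -/
def hv (v : R × (X → Bool)) (k : ℕ) : Prop :=
  ∃ x, Y.heavy ε (Y.pk v.1 v.2) (Y.hist ε (Y.pk v.1 v.2) (av Y ε v k)) x

theorem hist_succ (v : R × (X → Bool)) (k : ℕ) :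
    (Y.hist ε (Y.pk v.1 v.2) (av Y ε v (k + 1))).map Prod.fst =
      xv Y ε v k :: (Y.hist ε (Y.pk v.1 v.2) (av Y ε v k)).map Prod.fst := rfl

theorem mem_hist (v : R × (X → Bool)) {j k : ℕ} (h : j < k) :
    xv Y ε v j ∈ (Y.hist ε (Y.pk v.1 v.2) (av Y ε v k)).map Prod.fst := by
  induction k with
  | zero => omega
  | succ k ih =>
    rw [hist_succ]
    rcases Nat.lt_succ_iff_lt_or_eq.1 h with h | rfl
    · exact List.mem_cons_of_mem _ (ih h)
    · exact List.mem_cons_self

theorem heavy_xv (v : R × (X → Bool)) (k : ℕ) (h : hv Y ε v k) :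
    Y.heavy ε (Y.pk v.1 v.2) (Y.hist ε (Y.pk v.1 v.2) (av Y ε v k)) (xv Y ε v k) := by
  have h' : ∃ x, Y.heavy ε (Y.pk v.1 v.2) (Y.hist ε (Y.pk v.1 v.2) (av Y ε v k)) x := h
  have : xv Y ε v k = h'.choose := by
    unfold xv Sys.nx
    rw [dif_pos h']
  rw [this]
  exact h'.choose_spec

theorem xv_inj (v : R × (X → Bool)) {j k : ℕ} (hj : hv Y ε v j) (hk : hv Y ε v k)
    (h : xv Y ε v j = xv Y ε v k) : j = k := by
  rcases lt_trichotomy j k with hl | hl | hl
  · exact absurd (h ▸ mem_hist Y ε v hl) (heavy_xv Y ε v k hk).1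
  · exact hl
  · exact absurd (h ▸ mem_hist Y ε v hl) (heavy_xv Y ε v j hj).1

open Classical in
theorem fiber (v₀ : R × (X → Bool)) (k : ℕ) :
    (Finset.univ.filter fun v : R × (X → Bool) =>
      (Y.pk v.1 v.2, av Y ε v k) = (Y.pk v₀.1 v₀.2, av Y ε v₀ k)) =
    Y.post (Y.pk v₀.1 v₀.2) (Y.hist ε (Y.pk v₀.1 v₀.2) (av Y ε v₀ k)) := by
  ext v
  simp only [Finset.mem_filter, Finset.mem_univ, true_and, Sys.post, Prod.mk.injEq]
  have hl : (av Y ε v₀ k).length = k := ans_length _ _ _
  have key := p_fin2a X R S Y ε (Y.pk v₀.1 v₀.2) v.2 (av Y ε v₀ k)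
  rw [hl] at key
  constructor
  · rintro ⟨h1, h2⟩
    refine ⟨h1, key.1 ?_⟩
    rw [← h2, ← h1]
    rfl
  · rintro ⟨h1, h2⟩
    refine ⟨h1, ?_⟩
    have := key.2 h2
    rw [← this, ← h1]
    rfl

open Classical in
theorem claimA (k : ℕ) :
    ε * ((Finset.univ.filter fun v : R × (X → Bool) => hv Y ε v k).card : ℝ) ≤
      ((Finset.univ.filter fun v : R × (X → Bool) => hv Y ε v k ∧
        xv Y ε v k ∈ Y.QA v.1 v.2).card : ℝ) := by
  set F := Finset.univ.filter fun v : R × (X → Bool) => hv Y ε v k with hF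
  set G := Finset.univ.filter fun v : R × (X → Bool) => hv Y ε v k ∧
        xv Y ε v k ∈ Y.QA v.1 v.2 with hG
  set φ : R × (X → Bool) → List Bool × List Bool := fun v => (Y.pk v.1 v.2, av Y ε v k) with hφ
  have e1 : F.card = ∑ b ∈ F.image φ, (F.filter fun v => φ v = b).card :=
    Finset.card_eq_sum_card_image φ F
  have e2 : ∑ b ∈ F.image φ, (G.filter fun v => φ v = b).card ≤ G.card := by
    rw [← Finset.card_biUnion]
    · apply Finset.card_le_card
      intro v hv
      rw [Finset.mem_biUnion] at hv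
      obtain ⟨b, _, hb⟩ := hv
      exact (Finset.mem_filter.1 hb).1
    · intro b _ c _ hbc
      apply Finset.disjoint_left.2
      intro v h1 h2
      exact hbc ((Finset.mem_filter.1 h1).2.symm.trans (Finset.mem_filter.1 h2).2)
  have e3 : ∀ b ∈ F.image φ, ε * ((F.filter fun v => φ v = b).card : ℝ) ≤
      ((G.filter fun v => φ v = b).card : ℝ) := by
    intro b hb
    obtain ⟨v₀, hv₀, rfl⟩ := Finset.mem_image.1 hb
    have h0 : hv Y ε v₀ k := (Finset.mem_filter.1 hv₀).2
    have hH := heavy_xv Y ε v₀ k h0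
    have hfib := fiber Y ε v₀ k
    have hcomm : ∀ v, φ v = φ v₀ → (hv Y ε v k ∧ xv Y ε v k = xv Y ε v₀ k) := by
      intro v hvv
      have h1 : Y.pk v.1 v.2 = Y.pk v₀.1 v₀.2 := (Prod.mk.inj hvv).1
      have h2 : av Y ε v k = av Y ε v₀ k := (Prod.mk.inj hvv).2
      constructor
      · unfold hv at h0 ⊢
        rw [h1, h2]
        exact h0
      · unfold xv
        rw [h1, h2]
    have f1 : (F.filter fun v => φ v = φ v₀) =
        Y.post (Y.pk v₀.1 v₀.2) (Y.hist ε (Y.pk v₀.1 v₀.2) (av Y ε v₀ k)) := by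
      rw [← hfib]
      ext v
      simp only [hF, Finset.mem_filter, Finset.mem_univ, true_and]
      exact ⟨fun h => h.2, fun h => ⟨(hcomm v h).1, h⟩⟩
    have f2 : (G.filter fun v => φ v = φ v₀) =
        (Y.post (Y.pk v₀.1 v₀.2) (Y.hist ε (Y.pk v₀.1 v₀.2) (av Y ε v₀ k))).filter
          fun v => xv Y ε v₀ k ∈ Y.QA v.1 v.2 := by
      rw [← hfib]
      ext v
      simp only [hG, Finset.mem_filter, Finset.mem_univ, true_and]
      constructor
      · rintro ⟨⟨_, h2⟩, h3⟩
        refine ⟨h3, ?_⟩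
        rw [← (hcomm v h3).2]
        exact h2
      · rintro ⟨h3, h2⟩
        refine ⟨⟨(hcomm v h3).1, ?_⟩, h3⟩
        rw [(hcomm v h3).2]
        exact h2
    rw [f1, f2]
    exact hH.2.le
  calc ε * (F.card : ℝ) = ∑ b ∈ F.image φ, ε * ((F.filter fun v => φ v = b).card : ℝ) := by
        rw [e1, Nat.cast_sum, Finset.mul_sum]
    _ ≤ ∑ b ∈ F.image φ, ((G.filter fun v => φ v = b).card : ℝ) := Finset.sum_le_sum e3
    _ ≤ (G.card : ℝ) := by exact_mod_cast e2

open Classical in
theorem claimB (v : R × (X → Bool)) (K : ℕ) :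
    ((Finset.range K).filter fun k => hv Y ε v k ∧ xv Y ε v k ∈ Y.QA v.1 v.2).card ≤ Y.t := by
  refine le_trans ?_ (Y.cA v.1 v.2)
  apply Finset.card_le_card_of_injOn (fun k => xv Y ε v k)
  · intro k hk
    exact (Finset.mem_filter.1 (Finset.mem_coe.1 hk)).2.2
  · intro j hj k hk h
    exact xv_inj Y ε v (Finset.mem_filter.1 (Finset.mem_coe.1 hj)).2.1
      (Finset.mem_filter.1 (Finset.mem_coe.1 hk)).2.1 h

open Classical in
theorem claimC (K : ℕ) :
    ∑ k ∈ Finset.range K, ((Finset.univ.filter fun v : R × (X → Bool) => hv Y ε v k ∧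
        xv Y ε v k ∈ Y.QA v.1 v.2).card : ℝ) ≤ Y.t * Fintype.card (R × (X → Bool)) := by
  have h1 : ∑ k ∈ Finset.range K, (Finset.univ.filter fun v : R × (X → Bool) => hv Y ε v k ∧
        xv Y ε v k ∈ Y.QA v.1 v.2).card = ∑ v : R × (X → Bool),
        ((Finset.range K).filter fun k => hv Y ε v k ∧ xv Y ε v k ∈ Y.QA v.1 v.2).card := by
    simp only [Finset.card_filter]
    rw [Finset.sum_comm]
  have h2 : ∑ v : R × (X → Bool),
        ((Finset.range K).filter fun k => hv Y ε v k ∧ xv Y ε v k ∈ Y.QA v.1 v.2).card ≤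
        ∑ _v : R × (X → Bool), Y.t := Finset.sum_le_sum fun v _ => claimB Y ε v K
  rw [Finset.sum_const, Finset.card_univ, smul_eq_mul, mul_comm] at h2
  exact_mod_cast h1.trans_le h2

end

theorem p_fin2 : P_fin2 := by
  classical
  intro X R S _ _ _ Y ε K hε hK
  have hsum : ∑ k ∈ Finset.range K,
      ((Finset.univ.filter fun v : R × (X → Bool) => hv Y ε v k).card : ℝ) * (ε * K) ≤
      ∑ _k ∈ Finset.range K, (Y.t : ℝ) * Fintype.card (R × (X → Bool)) := by
    rw [Finset.sum_const, Finset.card_range, nsmul_eq_mul]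
    have h1 : ∑ k ∈ Finset.range K,
        ε * ((Finset.univ.filter fun v : R × (X → Bool) => hv Y ε v k).card : ℝ) ≤
        Y.t * Fintype.card (R × (X → Bool)) :=
      (Finset.sum_le_sum fun k _ => claimA Y ε k).trans (claimC Y ε K)
    calc ∑ k ∈ Finset.range K,
        ((Finset.univ.filter fun v : R × (X → Bool) => hv Y ε v k).card : ℝ) * (ε * K)
        = K * ∑ k ∈ Finset.range K,
          ε * ((Finset.univ.filter fun v : R × (X → Bool) => hv Y ε v k).card : ℝ) := by
          rw [Finset.mul_sum]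
          exact Finset.sum_congr rfl fun k _ => by ring
      _ ≤ K * (Y.t * Fintype.card (R × (X → Bool))) :=
          mul_le_mul_of_nonneg_left h1 (Nat.cast_nonneg K)
  obtain ⟨k, hk, hle⟩ := Finset.exists_le_of_sum_le
    (Finset.nonempty_range_iff.2 hK.ne') hsum
  refine ⟨k, Finset.mem_range.1 hk, ?_⟩
  refine le_of_eq_of_le ?_ hle
  congr 2
  apply congrArg
  ext v
  simp only [Finset.mem_filter, Finset.mem_univ, true_and]
  rfl

end Pool.Agent.W2helper19.IR
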